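import Mathlib
import Pool.Prelude.Def_F_c31e40fa
import Pool.Agent.X151.IR.AE

set_option autoImplicit false

open Filter Topology Set Metric MeasureTheory Complex N62a1eb23

namespace Pool.Agent.Results.MP_b511e9_an.AlmostEveryVelocity

open Pool.Agent.H713R2 Pool.Agent.H713R2.AR

/-- The escape rate (Green's function of the filled Julia set) of `z ↦ z ^ 2 + c`. -/
noncomputable def G (c z : ℂ) : ℝ :=
  limsup (fun n : ℕ => Real.posLog ‖(fun w : ℂ => w ^ 2 + c)^[n] z‖ / 2 ^ n) atTop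

/-- The velocity of the escaping points. The term of order `0` of the sum is `1`, so that this is
`- ∑_{k ≥ 1} 1 / (f_c^k)'(z)`. -/
noncomputable def V (c z : ℂ) : ℂ := 1 - ∑' k : ℕ, (deriv (fun w : ℂ => w ^ 2 + c)^[k] z)⁻¹

/-- The Dirichlet energy of the velocity outside of the sublevel set of Green's function. -/
noncomputable def energy (c : ℂ) (s : ℝ) : ENNReal :=
  ∫⁻ z in {z : ℂ | s < G c z}, ENNReal.ofReal (‖deriv (V c) z‖ ^ 2)

/-- At the level `s` the energy, the size and the logarithmic Lipschitz constant of the velocity are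
bounded by `K`. -/
def GrowAt (c : ℂ) (K s : ℝ) : Prop :=
  energy c s ≤ ENNReal.ofReal K ∧
  (∀ z : ℂ, s ≤ G c z → ‖V c z‖ ≤ K * Real.exp (G c z)) ∧
  ∀ z w : ℂ, s ≤ G c z → G c z ≤ 1 / 4 → s ≤ G c w → G c w ≤ 1 / 4 →
    ‖V c z - V c w‖ ≤ K * (‖z - w‖ * (1 + |Real.log ‖z - w‖|))

/-- `g` is proper of degree at most two from the bounded open set `U` onto a set which contains the
closure of `U`. Quadratic-like maps have this property. -/
def PolynomialLike (g : ℂ → ℂ) (U : Set ℂ) : Prop :=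
  IsOpen U ∧ Bornology.IsBounded U ∧ closure U ⊆ g '' U ∧
    (∀ K ⊆ g '' U, IsCompact K → IsCompact {z | z ∈ U ∧ g z ∈ K}) ∧
    ∀ w ∈ g '' U, {z | z ∈ U ∧ g z = w}.encard ≤ 2

/-- `z ↦ z ^ 2 + c` is renormalizable of period `p`. -/
def Renormalizable (c : ℂ) (p : ℕ) : Prop :=
  ∃ U : Set ℂ, PolynomialLike ((fun z : ℂ => z ^ 2 + c)^[p]) U ∧ (0 : ℂ) ∈ U ∧
    ∀ n : ℕ, 1 ≤ n → (fun z : ℂ => z ^ 2 + c)^[n * p] 0 ∈ U

theorem G_eq (c z : ℂ) : G c z = green 2 c z := by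
  unfold G green
  simp only [Nat.cast_ofNat]

theorem V_eq (c : ℂ) : V c = Pool.Agent.X151.MU.V 2 c := by
  funext z
  have hP : ∀ k, deriv (fun w : ℂ => w ^ 2 + c)^[k] z = Pool.Agent.W746.LD.P 2 c z k := fun k =>
    (Pool.Agent.W746.LD.hasDerivAt_orb z k).deriv
  unfold V Pool.Agent.X151.MU.V
  simp only [hP]

theorem energy_eq (c : ℂ) (s : ℝ) : energy c s = Pool.Agent.X151.IR.En 2 c s := by
  unfold energy Pool.Agent.X151.IR.En
  rw [V_eq]
  simp only [G_eq]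

theorem growAt_iff (c : ℂ) (K s : ℝ) : GrowAt c K s ↔ Pool.Agent.X151.IR.GrowAt 2 c K s := by
  unfold GrowAt Pool.Agent.X151.IR.GrowAt
  rw [energy_eq, V_eq]
  simp only [G_eq]

/-- (1) For almost every `c` in the Mandelbrot set and all `β > 1 / 2`, energy, size and logarithmic
Lipschitz constant of the velocity at the level `s` are at most `exp ((log (1 / s)) ^ β)` for all small
`s`. (2) In particular the infinitely renormalizable parameters for which this fails form a set of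
measure zero. -/
theorem result :
    (∀ᵐ c : ℂ, c ∈ mandelbrotSet → ∀ β : ℝ, 1 / 2 < β → ∀ᶠ s : ℝ in 𝓝[>] 0,
      GrowAt c (Real.exp ((Real.log (1 / s)) ^ β)) s) ∧
    volume {c : ℂ | {p : ℕ | Renormalizable c p}.Infinite ∧ ∃ β : ℝ, 1 / 2 < β ∧
      ∃ᶠ s : ℝ in 𝓝[>] 0, ¬ GrowAt c (Real.exp ((Real.log (1 / s)) ^ β)) s} = 0 := by
  have h1 : ∀ᵐ c : ℂ, c ∈ mandelbrotSet → ∀ β : ℝ, 1 / 2 < β → ∀ᶠ s : ℝ in 𝓝[>] 0,
      GrowAt c (Real.exp ((Real.log (1 / s)) ^ β)) s := by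
    have h2 := Pool.Agent.X151.IR.ae_grow (n := 2) le_rfl
    rw [ae_restrict_iff' (Pool.Agent.H637R4.PO.t_CLO 2 le_rfl).measurableSet] at h2
    filter_upwards [h2] with c hc hcM β hβ
    filter_upwards [hc hcM β hβ] with s hs
    rw [growAt_iff]
    exact hs
  refine ⟨h1, measure_mono_null ?_ h1⟩
  rintro c ⟨hc, β, hβ, hf⟩ hcon
  obtain ⟨p, hp, hp0⟩ := hc.exists_gt 0
  exact hf (by simpa using hcon (Pool.Agent.Y736.RN.ren_mem (d := 2) hp0 hp) β hβ)

end Pool.Agent.Results.MP_b511e9_an.AlmostEveryVelocity
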