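import Mathlib
import Pool.Prelude.Def_F_c31e40fa
import Pool.Agent.X151.IR.A

set_option autoImplicit false

open Filter Topology Set Metric MeasureTheory Complex N62a1eb23

namespace Pool.Agent.Results.MP_b511e9_an.SlowAreaDecay

open Pool.Agent.H713R2 Pool.Agent.H713R2.AR

/-- The escape rate (Green's function of the filled Julia set) of `z ↦ z ^ 2 + c`. -/
noncomputable def G (c z : ℂ) : ℝ :=
  limsup (fun n : ℕ => Real.posLog ‖(fun w : ℂ => w ^ 2 + c)^[n] z‖ / 2 ^ n) atTop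

/-- The area of the sublevel set of Green's function. -/
noncomputable def area (c : ℂ) (s : ℝ) : ℝ := (volume {z : ℂ | G c z ≤ s}).toReal

/-- The areas of the sublevel sets decay more slowly than every power. -/
def Slow (c : ℂ) : Prop := ∀ α : ℝ, 0 < α → ∀ᶠ s : ℝ in 𝓝[>] 0, s ^ α < area c s

/-- `g` is proper of degree at most two from the bounded open set `U` onto a set which contains the
closure of `U`. Quadratic-like maps have this property. -/
def PolynomialLike (g : ℂ → ℂ) (U : Set ℂ) : Prop :=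
  IsOpen U ∧ Bornology.IsBounded U ∧ closure U ⊆ g '' U ∧
    (∀ K ⊆ g '' U, IsCompact K → IsCompact {z | z ∈ U ∧ g z ∈ K}) ∧
    ∀ w ∈ g '' U, {z | z ∈ U ∧ g z = w}.encard ≤ 2

/-- `z ↦ z ^ 2 + c` is renormalizable of period `p`. -/
def Renormalizable (c : ℂ) (p : ℕ) : Prop :=
  ∃ U : Set ℂ, PolynomialLike ((fun z : ℂ => z ^ 2 + c)^[p]) U ∧ (0 : ℂ) ∈ U ∧
    ∀ n : ℕ, 1 ≤ n → (fun z : ℂ => z ^ 2 + c)^[n * p] 0 ∈ U

/-- `z ↦ z ^ 2 + c` is renormalizable of period `p` with bounds `C`: `U` contains the discs of some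
radius `r` about the points `f^[n p] 0`, and its image has diameter at most `C r`. -/
def Bounds (C : ℝ) (c : ℂ) (p : ℕ) : Prop :=
  ∃ (U : Set ℂ) (r : ℝ), PolynomialLike ((fun z : ℂ => z ^ 2 + c)^[p]) U ∧ 0 < r ∧
    (∀ n : ℕ, ball ((fun z : ℂ => z ^ 2 + c)^[n * p] 0) r ⊆ U) ∧
    ∀ z ∈ U, ∀ z' ∈ U,
      ‖(fun z : ℂ => z ^ 2 + c)^[p] z - (fun z : ℂ => z ^ 2 + c)^[p] z'‖ ≤ C * r

theorem G_eq (c z : ℂ) : G c z = green 2 c z := by
  unfold G green
  simp only [Nat.cast_ofNat]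

theorem area_eq (c : ℂ) (s : ℝ) : area c s = (volume {z : ℂ | green 2 c z ≤ s}).toReal := by
  unfold area
  simp only [G_eq]

theorem fast_of_not_slow {c : ℂ} (h : ¬ Slow c) :
    ∃ α : ℝ, 0 < α ∧ ∃ᶠ s : ℝ in 𝓝[>] 0, area c s ≤ s ^ α := by
  unfold Slow at h
  push Not at h
  exact h

theorem big {ψ : ℂ → ℂ} (hψ : IsExteriorMap (multibrotSet 2) ψ) {c : ℂ}
    (hc : c ∈ multibrotSet 2) {α : ℝ} (hα : 0 < α)
    (h : ∃ᶠ s : ℝ in 𝓝[>] 0, area c s ≤ s ^ α) : Pool.Agent.Y736.RN.Big ψ (1 / α) c := by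
  refine Pool.Agent.X151.IR.big_of_area le_rfl hψ hc hα (h.mono fun s hs => ?_)
  rw [area_eq] at hs
  exact hs

/-- (1) The infinitely renormalizable parameters for which the areas of the sublevel sets of Green's
function do not decay more slowly than every power form a set of Hausdorff dimension zero. (2) Every
nondegenerate connected set of infinitely renormalizable parameters contains a set of dimension at
least one of parameters with slow decay. (3) The decay is slow at every infinitely renormalizable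
parameter with subexponential bounds. (4), (5) Dimension bounds for every single period, and for the
Mandelbrot set. -/
theorem result :
    (dimH {c : ℂ | {p : ℕ | Renormalizable c p}.Infinite ∧ ¬ Slow c} = 0 ∧
      IsTotallyDisconnected {c : ℂ | {p : ℕ | Renormalizable c p}.Infinite ∧ ¬ Slow c} ∧
      volume {c : ℂ | {p : ℕ | Renormalizable c p}.Infinite ∧ ¬ Slow c} = 0) ∧
    (∀ X : Set ℂ, (∀ c ∈ X, {p : ℕ | Renormalizable c p}.Infinite) → IsPreconnected X →
      X.Nontrivial → 1 ≤ dimH {c : ℂ | c ∈ X ∧ Slow c}) ∧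
    (∀ c : ℂ, (∀ ε : ℝ, 0 < ε → {p : ℕ | Bounds (Real.exp (ε * p)) c p}.Infinite) → Slow c) ∧
    (∀ p : ℕ, 1 ≤ p → ∀ α : ℝ, 0 < α →
      dimH {c : ℂ | Renormalizable c p ∧ ∃ᶠ s : ℝ in 𝓝[>] 0, area c s ≤ s ^ α} ≤
        ENNReal.ofReal (1 / (α * p))) ∧
    ∀ α : ℝ, 0 < α →
      dimH {c : ℂ | c ∈ mandelbrotSet ∧ ∃ᶠ s : ℝ in 𝓝[>] 0, area c s ≤ s ^ α} ≤
        ENNReal.ofReal (1 / α) := by
  obtain ⟨β, hβ⟩ := exists_beta (d := 2) le_rfl
  have hψ := exteriorMap_of_beta hβ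
  have hdim : dimH {c : ℂ | {p : ℕ | Renormalizable c p}.Infinite ∧ ¬ Slow c} = 0 := by
    apply Pool.Agent.Y736.RN.dim_inf le_rfl hψ
    rintro c ⟨h1, h2⟩
    refine ⟨h1, ?_⟩
    obtain ⟨α, hα, h3⟩ := fast_of_not_slow h2
    obtain ⟨p, hp, hp0⟩ := h1.exists_gt 0
    exact ⟨1 / α, by positivity, big hψ (Pool.Agent.Y736.RN.ren_mem (d := 2) hp0 hp) hα h3⟩
  have hper : ∀ p : ℕ, 1 ≤ p → ∀ α : ℝ, 0 < α →
      dimH {c : ℂ | Renormalizable c p ∧ ∃ᶠ s : ℝ in 𝓝[>] 0, area c s ≤ s ^ α} ≤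
        ENNReal.ofReal (1 / (α * p)) := by
    intro p hp α hα
    have h1 : (1 : ℝ) / (α * p) = 1 / α / p := by rw [div_div]
    rw [h1]
    refine (dimH_mono ?_).trans
      (Pool.Agent.Y736.RN.dim_big (d := 2) le_rfl hp hψ (κ := 1 / α) (by positivity))
    rintro c ⟨h2, h3⟩
    exact ⟨h2, big hψ (Pool.Agent.Y736.RN.ren_mem (d := 2) hp h2) hα h3⟩
  refine ⟨⟨hdim, Pool.Agent.Y736.RN.totallyDisconnected_of_dimH (by rw [hdim]; norm_num),
    Pool.Agent.Y736.RN.volume_zero_of_dimH (by rw [hdim]; norm_num)⟩, ?_, ?_, hper, ?_⟩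
  · intro X hX hpre hnt
    by_contra hcon
    rw [not_le] at hcon
    have h1 : X ⊆ {c : ℂ | c ∈ X ∧ Slow c} ∪
        {c : ℂ | {p : ℕ | Renormalizable c p}.Infinite ∧ ¬ Slow c} := by
      intro c hc
      by_cases h : Slow c
      · exact Or.inl ⟨hc, h⟩
      · exact Or.inr ⟨hX c hc, h⟩
    have h2 : dimH X < 1 := by
      refine (dimH_mono h1).trans_lt ?_
      rw [dimH_union, hdim]
      simpa using hcon
    have h3 := Pool.Agent.Y736.RN.totallyDisconnected_of_dimH h2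
    have h4 : X.Subsingleton := h3 X Subset.rfl hpre
    exact (Set.not_subsingleton_iff.2 hnt) h4
  · intro c h
    by_contra hcon
    obtain ⟨α, hα, h3⟩ := fast_of_not_slow hcon
    obtain ⟨p, ⟨U, r, hU, hr, hball, hdiam⟩, hp0⟩ := (h 1 one_pos).exists_gt 0
    have hren : Renormalizable c p := by
      refine ⟨U, hU, ?_, fun n _ => hball n (mem_ball_self hr)⟩
      have h1 := hball 0 (mem_ball_self hr)
      simpa using h1
    have hc := Pool.Agent.Y736.RN.ren_mem (d := 2) hp0 hren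
    refine Pool.Agent.Y736.RN.not_big_of_weak le_rfl hψ hc ?_ (1 / α) (by positivity)
      (big hψ hc hα h3)
    intro ε hε
    refine (h ε hε).mono ?_
    rintro q ⟨U, r, _, hr, hball, hdiam⟩
    exact ⟨U, r, hr, hball, hdiam⟩
  · intro α hα
    have h1 := Pool.Agent.Y736.RN.dim_big (d := 2) (p := 1) le_rfl le_rfl hψ (κ := 1 / α)
      (by positivity)
    rw [Nat.cast_one, div_one] at h1
    refine (dimH_mono ?_).trans h1
    rintro c ⟨h2, h3⟩
    exact ⟨Pool.Agent.Y736.RN.ren_one le_rfl h2, big hψ h2 hα h3⟩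

end Pool.Agent.Results.MP_b511e9_an.SlowAreaDecay
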