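import Mathlib
import Pool.Prelude.Def_F_c31e40fa
import Pool.Agent.X151.IR.Calm

set_option autoImplicit false

open Filter Topology Set Metric MeasureTheory Complex N62a1eb23

namespace Pool.Agent.Results.MP_b511e9_an.VelocityEnergy

open Pool.Agent.H713R2 Pool.Agent.H713R2.AR

/-- The escape rate (Green's function of the filled Julia set) of `z ↦ z ^ 2 + c`. -/
noncomputable def G (c z : ℂ) : ℝ :=
  limsup (fun n : ℕ => Real.posLog ‖(fun w : ℂ => w ^ 2 + c)^[n] z‖ / 2 ^ n) atTop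

/-- The velocity of the escaping points. The term of order `0` of the sum is `1`, so that this is
`- ∑_{k ≥ 1} 1 / (f_c^k)'(z)`. -/
noncomputable def V (c z : ℂ) : ℂ := 1 - ∑' k : ℕ, (deriv (fun w : ℂ => w ^ 2 + c)^[k] z)⁻¹

/-- The Dirichlet energy of the velocity outside of the sublevel set of Green's function. -/
noncomputable def energy (c : ℂ) (s : ℝ) : ENNReal :=
  ∫⁻ z in {z : ℂ | s < G c z}, ENNReal.ofReal (‖deriv (V c) z‖ ^ 2)

/-- The energies grow more slowly than every power. -/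
def Quiet (c : ℂ) : Prop := ∀ ε : ℝ, 0 < ε → ∀ᶠ s : ℝ in 𝓝[>] 0,
  energy c s ≤ ENNReal.ofReal (s ^ (-ε))

/-- `g` is proper of degree at most two from the bounded open set `U` onto a set which contains the
closure of `U`. Quadratic-like maps have this property. -/
def PolynomialLike (g : ℂ → ℂ) (U : Set ℂ) : Prop :=
  IsOpen U ∧ Bornology.IsBounded U ∧ closure U ⊆ g '' U ∧
    (∀ K ⊆ g '' U, IsCompact K → IsCompact {z | z ∈ U ∧ g z ∈ K}) ∧
    ∀ w ∈ g '' U, {z | z ∈ U ∧ g z = w}.encard ≤ 2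

/-- `z ↦ z ^ 2 + c` is renormalizable of period `p`. -/
def Renormalizable (c : ℂ) (p : ℕ) : Prop :=
  ∃ U : Set ℂ, PolynomialLike ((fun z : ℂ => z ^ 2 + c)^[p]) U ∧ (0 : ℂ) ∈ U ∧
    ∀ n : ℕ, 1 ≤ n → (fun z : ℂ => z ^ 2 + c)^[n * p] 0 ∈ U

/-- `z ↦ z ^ 2 + c` is renormalizable of period `p` with bounds `C`: `U` contains the discs of some
radius `r` about the points `f^[n p] 0`, and its image has diameter at most `C r`. -/
def Bounds (C : ℝ) (c : ℂ) (p : ℕ) : Prop :=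
  ∃ (U : Set ℂ) (r : ℝ), PolynomialLike ((fun z : ℂ => z ^ 2 + c)^[p]) U ∧ 0 < r ∧
    (∀ n : ℕ, ball ((fun z : ℂ => z ^ 2 + c)^[n * p] 0) r ⊆ U) ∧
    ∀ z ∈ U, ∀ z' ∈ U,
      ‖(fun z : ℂ => z ^ 2 + c)^[p] z - (fun z : ℂ => z ^ 2 + c)^[p] z'‖ ≤ C * r

theorem G_eq (c z : ℂ) : G c z = green 2 c z := by
  unfold G green
  simp only [Nat.cast_ofNat]

theorem V_eq (c : ℂ) : V c = Pool.Agent.X151.MU.V 2 c := by
  funext z
  have hP : ∀ k, deriv (fun w : ℂ => w ^ 2 + c)^[k] z = Pool.Agent.W746.LD.P 2 c z k := fun k =>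
    (Pool.Agent.W746.LD.hasDerivAt_orb z k).deriv
  unfold V Pool.Agent.X151.MU.V
  simp only [hP]

theorem energy_eq (c : ℂ) (s : ℝ) : energy c s = Pool.Agent.X151.IR.En 2 c s := by
  unfold energy Pool.Agent.X151.IR.En
  rw [V_eq]
  simp only [G_eq]

theorem big {ψ : ℂ → ℂ} (hψ : IsExteriorMap (multibrotSet 2) ψ) {c : ℂ}
    (hc : c ∈ multibrotSet 2) {κ ε : ℝ} (hκ : 0 < κ) (hε : 2 / κ < ε)
    (h : ∃ᶠ s : ℝ in 𝓝[>] 0, ENNReal.ofReal (s ^ (-ε)) < energy c s) :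
    Pool.Agent.Y736.RN.Big ψ κ c := by
  refine Pool.Agent.X151.IR.big_of_energy le_rfl hψ hc hκ hε (h.mono fun s hs => ?_)
  rw [energy_eq] at hs
  exact hs

theorem big_of_not_quiet {ψ : ℂ → ℂ} (hψ : IsExteriorMap (multibrotSet 2) ψ) {c : ℂ}
    (hc : c ∈ multibrotSet 2) (h : ¬ Quiet c) :
    ∃ κ : ℝ, 0 < κ ∧ Pool.Agent.Y736.RN.Big ψ κ c := by
  unfold Quiet at h
  push Not at h
  obtain ⟨ε, hε, h1⟩ := h
  refine ⟨4 / ε, by positivity, big hψ hc (by positivity) ?_ h1⟩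
  rw [div_div_eq_mul_div]
  linarith

/-- (1) If Green's function of the Mandelbrot set is at most `s` on the disc of radius `r` about the
parameter `c`, then `r ^ 2` times the Dirichlet energy of the velocity over `{G_c > s₁}` is at most
the area of `{G_c ≤ s₁}`, for all `s₁ > s / 2`. (2) The infinitely renormalizable parameters for
which the energies do not grow more slowly than every power form a set of Hausdorff dimension zero.
(3) The growth is slow at every infinitely renormalizable parameter with subexponential bounds.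
(4) Dimension bounds for every single period. -/
theorem result :
    (∀ c ∈ mandelbrotSet, ∀ r s s₁ : ℝ, 0 < r → (∀ t ∈ ball c r, G t t ≤ s) → s / 2 < s₁ →
      ENNReal.ofReal (r ^ 2) * energy c s₁ ≤ volume {z : ℂ | G c z ≤ s₁}) ∧
    (dimH {c : ℂ | {p : ℕ | Renormalizable c p}.Infinite ∧ ¬ Quiet c} = 0 ∧
      IsTotallyDisconnected {c : ℂ | {p : ℕ | Renormalizable c p}.Infinite ∧ ¬ Quiet c} ∧
      volume {c : ℂ | {p : ℕ | Renormalizable c p}.Infinite ∧ ¬ Quiet c} = 0) ∧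
    (∀ c : ℂ, (∀ ε : ℝ, 0 < ε → {p : ℕ | Bounds (Real.exp (ε * p)) c p}.Infinite) → Quiet c) ∧
    ∀ p : ℕ, 1 ≤ p → ∀ ε : ℝ, 0 < ε →
      dimH {c : ℂ | Renormalizable c p ∧
        ∃ᶠ s : ℝ in 𝓝[>] 0, ENNReal.ofReal (s ^ (-ε)) < energy c s} ≤
        ENNReal.ofReal (2 / (ε * p)) := by
  obtain ⟨β, hβ⟩ := exists_beta (d := 2) le_rfl
  have hψ := exteriorMap_of_beta hβ
  have hdim : dimH {c : ℂ | {p : ℕ | Renormalizable c p}.Infinite ∧ ¬ Quiet c} = 0 := by
    apply Pool.Agent.Y736.RN.dim_inf le_rfl hψ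
    rintro c ⟨h1, h2⟩
    obtain ⟨p, hp, hp0⟩ := h1.exists_gt 0
    exact ⟨h1, big_of_not_quiet hψ (Pool.Agent.Y736.RN.ren_mem (d := 2) hp0 hp) h2⟩
  refine ⟨?_, ⟨hdim, Pool.Agent.Y736.RN.totallyDisconnected_of_dimH (by rw [hdim]; norm_num),
    Pool.Agent.Y736.RN.volume_zero_of_dimH (by rw [hdim]; norm_num)⟩, ?_, ?_⟩
  · intro c hc r s s₁ hr hs hs₁
    have h1 := Pool.Agent.X151.IR.dirM (n := 2) le_rfl hc hr (s := s) (s₁ := s₁)
      (fun t ht => by have := hs t ht; rwa [G_eq] at this) (by push_cast; exact hs₁)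
    rw [energy_eq]
    simp only [G_eq]
    exact h1
  · intro c h
    by_contra hcon
    obtain ⟨p, ⟨U, r, hU, hr, hball, hdiam⟩, hp0⟩ := (h 1 one_pos).exists_gt 0
    have hren : Renormalizable c p := by
      refine ⟨U, hU, ?_, fun n _ => hball n (mem_ball_self hr)⟩
      have h1 := hball 0 (mem_ball_self hr)
      simpa using h1
    have hc := Pool.Agent.Y736.RN.ren_mem (d := 2) hp0 hren
    obtain ⟨κ, hκ, hB⟩ := big_of_not_quiet hψ hc hcon
    refine Pool.Agent.Y736.RN.not_big_of_weak le_rfl hψ hc ?_ κ hκ hB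
    intro ε hε
    refine (h ε hε).mono ?_
    rintro q ⟨U, r, _, hr, hball, hdiam⟩
    exact ⟨U, r, hr, hball, hdiam⟩
  · intro p hp ε hε
    have hpR : (1 : ℝ) ≤ p := by exact_mod_cast hp
    have h1 : Tendsto (fun κ : ℝ => ENNReal.ofReal (κ / p)) (𝓝[>] (2 / ε))
        (𝓝 (ENNReal.ofReal (2 / ε / p))) := by
      apply ENNReal.tendsto_ofReal
      exact (tendsto_id.div_const _).mono_left nhdsWithin_le_nhds
    rw [div_div] at h1
    apply ge_of_tendsto h1
    filter_upwards [self_mem_nhdsWithin] with κ hκ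
    have hκ' : 2 / ε < κ := hκ
    have hκ0 : 0 < κ := lt_trans (by positivity) hκ'
    refine (dimH_mono ?_).trans (Pool.Agent.Y736.RN.dim_big (d := 2) le_rfl hp hψ hκ0)
    rintro c ⟨hr, hc⟩
    refine ⟨hr, big hψ (Pool.Agent.Y736.RN.ren_mem (d := 2) hp hr) hκ0 ?_ hc⟩
    rw [div_lt_iff₀ hε] at hκ'
    rw [div_lt_iff₀ hκ0]
    linarith

end Pool.Agent.Results.MP_b511e9_an.VelocityEnergy
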